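import Pool.Agent.Helper9_CG.Stmt
import Pool.Agent.Helper48_LLG.Pull

/-!
# CG, module PULLC: in a round the graph may be assumed to be regular
-/

set_option autoImplicit false

namespace Pool.Agent.CG.H48

open SimpleGraph Pool.Agent.LAG Pool.Agent.LLG

theorem pullc_aux (hReg : Pool.Agent.LLG.H48.RegStmt) : PullcStmt := by
  classical
  intro k g hk hg hGood V _ A R Q hS
  obtain ⟨W, hW, f, A', R', h1, h2, h3, h4, h5, π, hπ, h6⟩ :=
    hReg V A R (2 * k) g hS.le hS.big hS.deg
  apply Pool.Agent.LLG.H48.Pull.pull_cnc f A R A' R' (⋃ i, Q i) k h2 h3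
  rw [Set.image_iUnion]
  refine hGood W A' R' (fun i => f '' Q i) ?_ h4
  have hM : A' \ R' = (A \ R).map f := by
    rw [h1]
    ext x y
    rw [sdiff_adj, sup_adj]
    constructor
    · rintro ⟨h | h, h'⟩
      · exact absurd h h'
      · exact h
    · intro h
      refine ⟨Or.inr h, ?_⟩
      rw [map_adj] at h
      obtain ⟨a, b, hab, rfl, rfl⟩ := h
      rw [sdiff_adj] at hab
      intro h'
      apply hab.2
      rw [← h3]
      exact h'
  have hpull : ∀ r, r ≤ g → ∀ x y, near A' r (f x) (f y) → near A r x y := by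
    intro r hr x y hn
    have := h6 _ _ _ hr hn
    rwa [hπ] at this
  refine ⟨?_, ?_, ?_, h5, fun v => (h4 v).le, ?_, ?_, ?_⟩
  · rw [h1]; exact le_sup_left
  · rw [hM]
    rintro x y ⟨p⟩
    rcases Pool.Agent.LLG.H48.Pull.reach_map_inv f (A \ R) p with h | ⟨a, b, rfl, rfl, hab⟩
    · rw [h]; exact near_refl 2 y
    · exact Pool.Agent.LLG.H48.Pull.near_map f (by
        ext u v
        simp) (hS.m2 a b hab)
  · rw [hM]
    intro x
    by_cases hx : ∃ a, x = f a
    · obtain ⟨a, rfl⟩ := hx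
      have hsub : {b | ((A \ R).map f).Reachable (f a) b} ⊆ f '' {b | (A \ R).Reachable a b} := by
        rintro y ⟨p⟩
        rcases Pool.Agent.LLG.H48.Pull.reach_map_inv f (A \ R) p with h | ⟨a', b, ha, rfl, hab⟩
        · exact ⟨a, Reachable.refl _, h⟩
        · have := f.injective ha
          subst this
          exact ⟨b, hab, rfl⟩
      refine (Set.ncard_le_ncard hsub (Set.toFinite _)).trans ?_
      rw [Set.ncard_image_of_injective _ f.injective]
      exact hS.m3 a
    · have hsub : {b | ((A \ R).map f).Reachable x b} ⊆ {x} := by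
        rintro y ⟨p⟩
        rcases Pool.Agent.LLG.H48.Pull.reach_map_inv f (A \ R) p with h | ⟨a', b, ha, rfl, hab⟩
        · exact h.symm
        · exact absurd ⟨a', ha⟩ hx
      refine (Set.ncard_le_ncard hsub (Set.toFinite _)).trans ?_
      rw [Set.ncard_singleton]
      omega
  · rintro i j _ ⟨x, hx, rfl⟩ _ ⟨y, hy, rfl⟩ hne hn
    exact hS.sep i j x hx y hy (fun h => hne (by rw [h])) (hpull 82 (by omega) x y hn)
  · rintro _ ⟨x, hx, rfl⟩ _ ⟨y, hy, rfl⟩ hne hn
    exact hS.s0 x hx y hy (fun h => hne (by rw [h])) (hpull 186 (by omega) x y hn)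
  · rintro i hi _ ⟨x, hx, rfl⟩ _ ⟨y, hy, rfl⟩ hne hn
    exact hS.s1 i hi x hx y hy (fun h => hne (by rw [h])) (hpull 400 (by omega) x y hn)

/-- Module PULLC. -/
theorem pullc : PullcStmt := pullc_aux (Pool.Agent.LLG.H48.Reg.reg Pool.Agent.LLG.H48.Gad.gad)

end Pool.Agent.CG.H48
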